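import Pool.Agent.R782.Bal.Main

/-!
# Singer's conjecture for right-angled Coxeter groups whose nerve is a colourwise subdivided sphere

`HSph n G`: the flag complex of the graph `G`, the nerve of the right-angled Coxeter group `W G`, is a homology
manifold with the homology of the `(n-1)`-sphere, over the reals. `L2Van G i`: the reduced `ℓ²`-homology of the Davis
complex vanishes in the degree `i`.

(1) Let `X` be a simplicial complex embedded in the sphere of dimension `2 d` (for example a triangulation of the
sphere of dimension `2 d` or `2 d - 1`), with a colouring of its vertices, and let `cs X col` be the graph of the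
subdivision of `X` in which only the monochromatic simplices are barycentrically subdivided. The colouring is small if
there are numbers `a c` with sum at most `d + 1` such that the simplices of colour `c` have at most `2 a c` vertices;
for example, there are `d + 1` colours and no monochromatic triangles; then `cs X col` arises from `X` by the
subdivision of the monochromatic edges.

(2) The class `SQ b` has as a base the flag complexes embedded in the sphere of dimension `2 d` which are properly
coloured by `d + 1` colours, `b = d + 1`, and it is closed under the operations listed in its definition. It contains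
the class `AR n` of the result `SplitSinger` for `b = n / 2 + 1`.
-/

set_option autoImplicit false

namespace Pool.Agent.Results.MP_577489_gt.ColouredSpheres

open Pool.Agent.W907.SG Pool.Agent.R782.Bal
open Pool.Agent.TH652.Above (HSph)

/-- Singer's conjecture for right-angled Coxeter groups whose nerve is a real homology sphere of dimension `n - 1`
and the flag complex of one of the following graphs: (1) `cs X col`, for `X` embedded in the sphere of dimension
`2 d`, `n = 2 d` or `2 d + 1`, and a small colouring of its vertices; (2) the graphs in the class
`SQ (n / 2 + 1)`. -/
theorem result :
    (∀ (d n N k : ℕ) (X : Finset (Finset (Fin N))) (col : Fin N → Fin k), (n = 2 * d ∨ n = 2 * d + 1) →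
      (∀ σ ∈ X, ∀ τ : Finset (Fin N), τ ⊆ σ → τ ∈ X) → Small d X col → EmbX d X col →
      ∀ [Fintype (MF X col)] [LinearOrder (MF X col)], HSph n (cs X col) →
        ∀ i : ℕ, 2 * i ≠ n → L2Van (cs X col) i) ∧
    (∀ (n : ℕ) (V : Type) [Fintype V] [LinearOrder V] (G : SimpleGraph V), HSph n G → SQ (n / 2 + 1) G →
      ∀ i : ℕ, 2 * i ≠ n → L2Van G i) := by
  refine ⟨?_, ?_⟩
  · intro d n N k X col hn hX hs hE _ _ hS i hi
    exact singer_cs hn hX hs hE hS i hi
  · intro n V _ _ G hS hA i hi
    exact singer_SQ hS hA i hi

end Pool.Agent.Results.MP_577489_gt.ColouredSpheres
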