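import Pool.Agent.R781.VS.Growth

/-!
# The Singer conjecture for Davis manifolds of flag spheres built by vertex splittings

Let `L` be the flag complex of the finite graph `G` and suppose that `L` is a real homology manifold with the real
homology of the `(n-1)`-sphere (`HSph n G`).  The Davis complex of the right-angled Coxeter group `W G` is then a
contractible real homology `n`-manifold (a topological manifold if `L` is a combinatorial sphere) with a proper and
cocompact action of `W G`.

The class `AR n` is closed under vertex splitting, the inverse of the contraction of an edge which is not contained in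
an induced 4-cycle, and under the operations of the class `AQ n` (full subcomplexes, edge subdivisions, joins,
gluings, ...); it contains the barycentric subdivisions of all triangulated `(n-1)`-spheres.
-/

set_option autoImplicit false

namespace Pool.Agent.Results.MP_577489_gt.SplitSinger

open Pool.Agent.W907.SG Pool.Agent.W907.SM Pool.Agent.TH652.Above Pool.Agent.Y132.SI Pool.Agent.R781.VS

/-- Let the flag complex of the finite graph `G` be a real homology sphere of dimension `n - 1` in the class `AR n`.
(1) The reduced `ℓ²`-homology of the Davis complex of `W G` vanishes in all degrees `i ≠ n / 2`.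
(2) For `n = 2 m` the number `(-1)^m χ(W G)` is not negative, `χ(W G) = ∑_T (-1/2)^|T|` over the cliques `T`. -/
theorem result : ∀ (n : ℕ) (V : Type) [Fintype V] [LinearOrder V] (G : SimpleGraph V), HSph n G → AR n G →
    (∀ i : ℕ, 2 * i ≠ n → L2Van G i) ∧ (∀ m : ℕ, n = 2 * m → 0 ≤ (-1 : ℚ) ^ m * chiW G) := by
  intro n V _ _ G hS hA
  refine ⟨fun i hi => singer_AR hS hA i hi, ?_⟩
  rintro m rfl
  exact charney_davis_AR hS hA

end Pool.Agent.Results.MP_577489_gt.SplitSinger
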